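import Pool.Agent.Helper59.DI.WqoC
import Pool.Agent.Helper33.DI.Mul

/-!
DI-WQO: the well-quasi-order theorem (MP_b07a0a_ag).
-/

namespace Pool.Agent.Helper77.DI

/-- DI-WQO. -/
theorem wqo (x : ℕ → ℕ × ℕ × Multiset ℕ) (hx : ∀ t, Valid (x t)) :
    ∃ i j, i < j ∧ Relation.ReflTransGen Step (x i) (x j) :=
  WQ.wqo_aux (fun r ρ k κ p h1 h2 h3 h4 => step_mul r ρ k κ p h1 h2 h3 h4) x hx

end Pool.Agent.Helper77.DI
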