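import Pool.Agent.Helper77.DI.Base

/-!
DI-WQO, part A: matchings between multisets and reachability.
-/

namespace Pool.Agent.Helper77.DI

namespace WQ

/-- The statement of `step_mul`. -/
def StepMul : Prop := ∀ (r ρ k κ : ℕ) (p : Multiset (ℕ × ℕ)), (∀ q ∈ p, q.2 ≤ ρ) →
    Even (p.map Prod.snd).sum → 2 * ρ ≤ (p.map Prod.snd).sum → 2 * ρ ≤ κ →
    Relation.ReflTransGen Step (k, r, p.map Prod.fst)
      (k + κ, r + ρ, p.map fun q => q.1 + q.2)

/-- A matching of `s` into `s'` with paired extras. -/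
def Mt (r ρ : ℕ) (s s' : Multiset ℕ) (L B : ℕ) : Prop :=
  ∃ (q e : Multiset (ℕ × ℕ)) (m : Multiset ℕ) (z : ℕ),
    s = q.map Prod.fst ∧ s' = q.map Prod.snd + e.map Prod.snd ∧
    e.map Prod.fst = m + m + Multiset.replicate z 0 ∧ (∀ l ∈ m, l ≤ r) ∧
    (∀ p ∈ q + e, p.1 ≤ p.2 ∧ p.2 ≤ p.1 + ρ) ∧ L = 2 * m.sum ∧
    B = ((q + e).map fun p => p.2 - p.1).sum

theorem Mt.add {r ρ : ℕ} {s1 s1' s2 s2' : Multiset ℕ} {L1 B1 L2 B2 : ℕ}
    (h1 : Mt r ρ s1 s1' L1 B1) (h2 : Mt r ρ s2 s2' L2 B2) :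
    Mt r ρ (s1 + s2) (s1' + s2') (L1 + L2) (B1 + B2) := by
  obtain ⟨q1, e1, m1, z1, ha1, hb1, hc1, hd1, he1, hL1, hB1⟩ := h1
  obtain ⟨q2, e2, m2, z2, ha2, hb2, hc2, hd2, he2, hL2, hB2⟩ := h2
  refine ⟨q1 + q2, e1 + e2, m1 + m2, z1 + z2, ?_, ?_, ?_, ?_, ?_, ?_, ?_⟩
  · rw [Multiset.map_add, ha1, ha2]
  · rw [Multiset.map_add, Multiset.map_add, hb1, hb2]
    abel
  · rw [Multiset.map_add, hc1, hc2, Multiset.replicate_add]
    abel
  · intro l hl
    rcases Multiset.mem_add.1 hl with h | h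
    · exact hd1 l h
    · exact hd2 l h
  · intro p hp
    have : p ∈ (q1 + e1) + (q2 + e2) := by
      have e : q1 + q2 + (e1 + e2) = (q1 + e1) + (q2 + e2) := by abel
      rw [← e]
      exact hp
    rcases Multiset.mem_add.1 this with h | h
    · exact he1 p h
    · exact he2 p h
  · rw [Multiset.sum_add, hL1, hL2]
    ring
  · have e : q1 + q2 + (e1 + e2) = (q1 + e1) + (q2 + e2) := by abel
    rw [e, Multiset.map_add, Multiset.sum_add, hB1, hB2]

theorem Mt.zero (r ρ : ℕ) : Mt r ρ 0 0 0 0 :=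
  ⟨0, 0, 0, 0, by simp, by simp, by simp, by simp, by simp, by simp, by simp⟩

theorem Mt.single {r ρ b b' : ℕ} (h1 : b ≤ b') (h2 : b' ≤ b + ρ) : Mt r ρ {b} {b'} 0 (b' - b) := by
  refine ⟨{(b, b')}, 0, 0, 0, by simp, by simp, by simp, by simp, ?_, by simp, by simp⟩
  intro p hp
  simp only [add_zero, Multiset.mem_singleton] at hp
  subst hp
  exact ⟨h1, h2⟩

theorem Mt.extra {r ρ b b' l : ℕ} (h1 : l ≤ b) (h2 : b ≤ l + ρ) (h1' : l ≤ b') (h2' : b' ≤ l + ρ)
    (hl : l ≤ r) : Mt r ρ 0 ({b} + {b'}) (2 * l) (b - l + (b' - l)) := by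
  refine ⟨0, {(l, b)} + {(l, b')}, {l}, 0, by simp, by simp, by simp, ?_, ?_, by simp, by simp⟩
  · intro x hx
    rw [Multiset.mem_singleton] at hx
    omega
  · intro p hp
    rw [zero_add] at hp
    rcases Multiset.mem_add.1 hp with h | h <;> rw [Multiset.mem_singleton] at h <;> subst h
    · exact ⟨h1, h2⟩
    · exact ⟨h1', h2'⟩

theorem Mt.extra0 {r ρ b : ℕ} (h2 : b ≤ ρ) : Mt r ρ 0 {b} 0 b := by
  refine ⟨0, {(0, b)}, 0, 1, by simp, by simp, by simp, by simp, ?_, by simp, by simp⟩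
  intro p hp
  simp only [zero_add, Multiset.mem_singleton] at hp
  subst hp
  exact ⟨Nat.zero_le _, by simpa using h2⟩

theorem Mt.sum_eq {r ρ : ℕ} {s s' : Multiset ℕ} {L B : ℕ} (h : Mt r ρ s s' L B) :
    s'.sum = s.sum + L + B := by
  obtain ⟨q, e, m, z, ha, hb, hc, hd, he, hL, hB⟩ := h
  have h1 : ((q + e).map Prod.fst).sum + ((q + e).map fun p => p.2 - p.1).sum =
      ((q + e).map Prod.snd).sum := by
    rw [← Multiset.sum_map_add]
    congr 1
    apply Multiset.map_congr rfl
    intro p hp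
    have := (he p hp).1
    omega
  have h2 : ((q + e).map Prod.fst).sum = s.sum + L := by
    rw [Multiset.map_add, Multiset.sum_add, ← ha, hc, hL, Multiset.sum_add, Multiset.sum_add,
      Multiset.sum_replicate]
    simp
    ring
  have h3 : ((q + e).map Prod.snd).sum = s'.sum := by
    rw [Multiset.map_add, ← hb]
  rw [← h3, ← h1, h2, hB]

theorem add_pairs (k r : ℕ) (m : Multiset ℕ) : ∀ (s : Multiset ℕ), (∀ l ∈ m, l ≤ r) →
    Relation.ReflTransGen Step (k, r, s) (k, r, s + (m + m)) := by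
  induction m using Multiset.induction_on with
  | empty => intro s _; simpa using Relation.ReflTransGen.refl
  | cons l m ih =>
    intro s h
    have h1 := ih s (fun l' hl' => h l' (Multiset.mem_cons_of_mem hl'))
    have h2 : Step (k, r, s + (m + m)) (k, r, l ::ₘ l ::ₘ (s + (m + m))) :=
      Step.pair k r l _ (h l (Multiset.mem_cons_self l m))
    have h3 : s + ((l ::ₘ m) + (l ::ₘ m)) = l ::ₘ l ::ₘ (s + (m + m)) := by
      rw [← Multiset.singleton_add l m, ← Multiset.singleton_add l (l ::ₘ (s + (m + m))),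
        ← Multiset.singleton_add l (s + (m + m))]
      abel
    rw [h3]
    exact h1.tail h2

theorem add_zeros (k r : ℕ) (z : ℕ) : ∀ (s : Multiset ℕ),
    Relation.ReflTransGen Step (k, r, s) (k, r, s + Multiset.replicate z 0) := by
  induction z with
  | zero => intro s; simpa using Relation.ReflTransGen.refl
  | succ z ih =>
    intro s
    have h2 : Step (k, r, s + Multiset.replicate z 0) (k, r, 0 ::ₘ (s + Multiset.replicate z 0)) :=
      Step.zero k r _
    have h3 : s + Multiset.replicate (z + 1) 0 = 0 ::ₘ (s + Multiset.replicate z 0) := by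
      rw [Multiset.replicate_succ, Multiset.add_cons]
    rw [h3]
    exact (ih s).tail h2

theorem Mt.reach (hmul : StepMul) {k r k' r' : ℕ} {s s' : Multiset ℕ} {L B : ℕ} (hr : r ≤ r')
    (h : Mt r (r' - r) s s' L B) (hpar : s.sum % 2 = s'.sum % 2) (hB2 : 2 * (r' - r) ≤ B)
    (hk : k + 2 * (r' - r) ≤ k') :
    Relation.ReflTransGen Step (k, r, s) (k', r', s') := by
  have hsum := h.sum_eq
  obtain ⟨q, e, m, z, ha, hb, hc, hd, he, hL, hB⟩ := h
  have h1 := add_pairs k r m s hd
  have h2 := add_zeros k r z (s + (m + m))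
  have h3 : s + (m + m) + Multiset.replicate z 0 =
      ((q + e).map fun p => (p.1, p.2 - p.1)).map Prod.fst := by
    rw [Multiset.map_map]
    change _ = (q + e).map Prod.fst
    rw [Multiset.map_add, ← ha, hc, add_assoc]
  have h4 : s' = ((q + e).map fun p => (p.1, p.2 - p.1)).map fun p => p.1 + p.2 := by
    rw [Multiset.map_map, hb, ← Multiset.map_add]
    apply Multiset.map_congr rfl
    intro p hp
    have := (he p hp).1
    simp only [Function.comp_apply]
    omega
  have h5 : (((q + e).map fun p => (p.1, p.2 - p.1)).map Prod.snd).sum = B := by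
    rw [Multiset.map_map, hB]
    rfl
  have h6 := hmul r (r' - r) k (k' - k) ((q + e).map fun p => (p.1, p.2 - p.1)) (by
      intro p hp
      rw [Multiset.mem_map] at hp
      obtain ⟨p', hp', rfl⟩ := hp
      have := he p' hp'
      simp only
      omega) (by
      rw [h5, Nat.even_iff]
      rw [hL] at hsum
      omega) (by rw [h5]; exact hB2) (by omega)
  rw [← h4, ← h3] at h6
  have e1 : k + (k' - k) = k' := by omega
  have e2 : r + (r' - r) = r' := by omega
  rw [e1, e2] at h6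
  exact (h1.trans h2).trans h6

/-- Arbitrary matching of multisets of the same size. -/
theorem Mt.all {r ρ : ℕ} : ∀ (s w : Multiset ℕ), Multiset.card s = Multiset.card w →
    (∀ b ∈ s, ∀ b' ∈ w, b ≤ b' ∧ b' ≤ b + ρ) → ∃ B, Mt r ρ s w 0 B := by
  intro s
  induction s using Multiset.induction_on with
  | empty =>
    intro w hc _
    have : w = 0 := by
      rw [← Multiset.card_eq_zero, ← hc]
      simp
    subst this
    exact ⟨0, Mt.zero r ρ⟩
  | cons b s ih =>
    intro w hc hw
    have hw0 : w ≠ 0 := by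
      rintro rfl
      simp at hc
    obtain ⟨b', hb'⟩ := Multiset.exists_mem_of_ne_zero hw0
    obtain ⟨w', rfl⟩ := Multiset.exists_cons_of_mem hb'
    obtain ⟨B, hB⟩ := ih w' (by simpa using hc) (fun c hc c' hc' =>
      hw c (Multiset.mem_cons_of_mem hc) c' (Multiset.mem_cons_of_mem hc'))
    have h1 := hw b (Multiset.mem_cons_self _ _) b' (Multiset.mem_cons_self _ _)
    have h2 := (Mt.single (r := r) h1.1 h1.2).add hB
    rw [Multiset.singleton_add, Multiset.singleton_add, zero_add] at h2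
    exact ⟨_, h2⟩

/-- Extras matched with zeros. -/
theorem Mt.zeros {r ρ : ℕ} : ∀ (w : Multiset ℕ), (∀ b ∈ w, b ≤ ρ) → Mt r ρ 0 w 0 w.sum := by
  intro w
  induction w using Multiset.induction_on with
  | empty => intro _; simpa using Mt.zero r ρ
  | cons b w ih =>
    intro hw
    have h1 := (Mt.extra0 (r := r) (hw b (Multiset.mem_cons_self _ _))).add
      (ih (fun c hc => hw c (Multiset.mem_cons_of_mem hc)))
    rw [zero_add, zero_add, Multiset.singleton_add] at h1
    rw [Multiset.sum_cons]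
    exact h1

/-- An even number of extras with the constant value `l`. -/
theorem Mt.evens {r ρ l : ℕ} (hl : l ≤ r) : ∀ (n : ℕ) (w : Multiset ℕ), Multiset.card w = 2 * n →
    (∀ b ∈ w, l ≤ b ∧ b ≤ l + ρ) → Mt r ρ 0 w (2 * n * l) (w.sum - 2 * n * l) := by
  intro n
  induction n with
  | zero =>
    intro w hc _
    have : w = 0 := by
      rw [← Multiset.card_eq_zero, hc]
    subst this
    simpa using Mt.zero r ρ
  | succ n ih =>
    intro w hc hw
    have hw0 : w ≠ 0 := by
      rintro rfl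
      simp at hc
    obtain ⟨b, hb⟩ := Multiset.exists_mem_of_ne_zero hw0
    obtain ⟨w1, rfl⟩ := Multiset.exists_cons_of_mem hb
    have hw1 : w1 ≠ 0 := by
      rintro rfl
      simp at hc
      omega
    obtain ⟨b', hb'⟩ := Multiset.exists_mem_of_ne_zero hw1
    obtain ⟨w2, rfl⟩ := Multiset.exists_cons_of_mem hb'
    have h1 := hw b (Multiset.mem_cons_self _ _)
    have h2 := hw b' (Multiset.mem_cons_of_mem (Multiset.mem_cons_self _ _))
    have hw2 : ∀ c ∈ w2, l ≤ c ∧ c ≤ l + ρ := fun c hc =>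
      hw c (Multiset.mem_cons_of_mem (Multiset.mem_cons_of_mem hc))
    have hc2 : Multiset.card w2 = 2 * n := by
      simp only [Multiset.card_cons] at hc
      omega
    have h3 := (Mt.extra (r := r) h1.1 h1.2 h2.1 h2.2 hl).add (ih w2 hc2 hw2)
    have hge : 2 * n * l ≤ w2.sum := by
      have := Multiset.card_nsmul_le_sum (s := w2) (a := l) (fun c hc => (hw2 c hc).1)
      rw [hc2, smul_eq_mul] at this
      exact this
    have e1 : ({b} : Multiset ℕ) + {b'} + w2 = b ::ₘ b' ::ₘ w2 := by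
      rw [add_assoc, Multiset.singleton_add, Multiset.singleton_add]
    have e2 : 2 * l + 2 * n * l = 2 * (n + 1) * l := by ring
    have e3 : b - l + (b' - l) + (w2.sum - 2 * n * l) = (b ::ₘ b' ::ₘ w2).sum - 2 * (n + 1) * l := by
      rw [Multiset.sum_cons, Multiset.sum_cons, ← e2]
      omega
    rw [zero_add, e1, e2, e3] at h3
    exact h3

end WQ

end Pool.Agent.Helper77.DI
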