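import Pool.Agent.Helper59.DI.WqoA

/-!
DI-WQO, part B: label families, decompositions, the three kinds of good pairs.
-/

namespace Pool.Agent.Helper77.DI

namespace WQ

theorem Mt.reps {r ρ b b' : ℕ} (h1 : b ≤ b') (h2 : b' ≤ b + ρ) : ∀ n : ℕ,
    Mt r ρ (Multiset.replicate n b) (Multiset.replicate n b') 0 (n * (b' - b)) := by
  intro n
  induction n with
  | zero => simpa using Mt.zero r ρ
  | succ n ih =>
    have h := (Mt.single (r := r) h1 h2).add ih
    rw [Multiset.singleton_add, Multiset.singleton_add, ← Multiset.replicate_succ,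
      ← Multiset.replicate_succ, zero_add] at h
    have e : (n + 1) * (b' - b) = b' - b + n * (b' - b) := by ring
    rw [e]
    exact h

/-- One label: `n` copies of `b` against `n'` copies of `b'`. -/
theorem Mt.rep {r ρ b b' l n n' : ℕ} (hn : n ≤ n') (hpar : n % 2 = n' % 2) (h1 : b ≤ b')
    (h2 : b' ≤ b + ρ) (h3 : l ≤ b') (h4 : b' ≤ l + ρ) (hl : l ≤ r) :
    Mt r ρ (Multiset.replicate n b) (Multiset.replicate n' b') ((n' - n) * l)
      (n * (b' - b) + (n' - n) * (b' - l)) := by
  obtain ⟨d, hd⟩ : ∃ d, n' - n = 2 * d := ⟨(n' - n) / 2, by omega⟩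
  have hn' : n' = n + 2 * d := by omega
  have h5 := Mt.evens (r := r) (ρ := ρ) hl d (Multiset.replicate (2 * d) b') (by simp)
    (fun c hc => by
      rw [Multiset.eq_of_mem_replicate hc]
      exact ⟨h3, h4⟩)
  have h6 := (Mt.reps (r := r) h1 h2 n).add h5
  rw [add_zero, ← Multiset.replicate_add, ← hn', zero_add, Multiset.sum_replicate, smul_eq_mul,
    ← Nat.mul_sub] at h6
  rw [hd]
  exact h6

theorem Mt.sum_range {r ρ : ℕ} (S S' : ℕ → Multiset ℕ) (L B : ℕ → ℕ) : ∀ R : ℕ,
    (∀ c < R, Mt r ρ (S c) (S' c) (L c) (B c)) →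
    Mt r ρ (∑ c ∈ Finset.range R, S c) (∑ c ∈ Finset.range R, S' c)
      (∑ c ∈ Finset.range R, L c) (∑ c ∈ Finset.range R, B c) := by
  intro R
  induction R with
  | zero => intro _; simpa using Mt.zero r ρ
  | succ R ih =>
    intro h
    rw [Finset.sum_range_succ, Finset.sum_range_succ, Finset.sum_range_succ,
      Finset.sum_range_succ]
    exact (ih (fun c hc => h c (by omega))).add (h R (by omega))

theorem filter_eq_sum (s : Multiset ℕ) (R : ℕ) (g : ℕ → ℕ)
    (hg : ∀ c < R, ∀ c' < R, g c = g c' → c = c') (P : ℕ → Prop) [DecidablePred P]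
    (hP : ∀ b ∈ s, P b ↔ ∃ c < R, g c = b) :
    s.filter P = ∑ c ∈ Finset.range R, Multiset.replicate (s.count (g c)) (g c) := by
  ext b
  rw [Multiset.count_sum', Multiset.count_filter]
  simp only [Multiset.count_replicate]
  by_cases hb : b ∈ s
  · by_cases hPb : P b
    · rw [if_pos hPb]
      obtain ⟨c, hc, rfl⟩ := (hP b hb).1 hPb
      rw [Finset.sum_eq_single_of_mem c (Finset.mem_range.2 hc)]
      · rw [if_pos rfl]
      · intro c' hc' hne
        rw [if_neg]
        intro h
        exact hne (hg c' (Finset.mem_range.1 hc') c hc h)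
    · rw [if_neg hPb]
      symm
      apply Finset.sum_eq_zero
      intro c hc
      rw [if_neg]
      intro h
      exact hPb ((hP b hb).2 ⟨c, Finset.mem_range.1 hc, h⟩)
  · have h0 : s.count b = 0 := Multiset.count_eq_zero.2 hb
    rw [h0, ite_self]
    symm
    apply Finset.sum_eq_zero
    intro c _
    by_cases h : g c = b
    · rw [if_pos h, h, h0]
    · rw [if_neg h]

/-- Big entries. -/
def fb (R r : ℕ) (s : Multiset ℕ) : Multiset ℕ := s.filter (fun b => r < b + R)

/-- Small entries. -/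
def fs (R r : ℕ) (s : Multiset ℕ) : Multiset ℕ := s.filter (fun b => b < R ∧ b + R ≤ r)

/-- Medium entries. -/
def fm (R r : ℕ) (s : Multiset ℕ) : Multiset ℕ := s.filter (fun b => R ≤ b ∧ b + R ≤ r)

theorem split (R r : ℕ) (s : Multiset ℕ) : s = fb R r s + fs R r s + fm R r s := by
  unfold fb fs fm
  ext b
  rw [Multiset.count_add, Multiset.count_add, Multiset.count_filter, Multiset.count_filter,
    Multiset.count_filter]
  by_cases h1 : r < b + R
  · rw [if_pos h1, if_neg (by omega), if_neg (by omega)]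
    rfl
  · by_cases h2 : b < R
    · rw [if_neg h1, if_pos (by omega), if_neg (by omega)]
      omega
    · rw [if_neg h1, if_neg (by omega), if_pos (by omega)]
      omega

theorem fb_eq (R r : ℕ) (s : Multiset ℕ) (hs : ∀ b ∈ s, b ≤ r) (hR : R ≤ r) :
    fb R r s = ∑ c ∈ Finset.range R, Multiset.replicate (s.count (r - c)) (r - c) := by
  unfold fb
  apply filter_eq_sum s R (fun c => r - c)
  · intro c hc c' hc' h
    omega
  · intro b hb
    have := hs b hb
    constructor
    · intro h
      exact ⟨r - b, by omega, by omega⟩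
    · rintro ⟨c, hc, h⟩
      omega

theorem fs_eq (R r : ℕ) (s : Multiset ℕ) (hR : 2 * R ≤ r) :
    fs R r s = ∑ c ∈ Finset.range R, Multiset.replicate (s.count c) c := by
  unfold fs
  apply filter_eq_sum s R (fun c => c)
  · intro c _ c' _ h
    exact h
  · intro b _
    constructor
    · intro h
      exact ⟨b, h.1, rfl⟩
    · rintro ⟨c, hc, rfl⟩
      exact ⟨hc, by omega⟩

theorem exists_le_card {m : Multiset ℕ} {n : ℕ} (h : n ≤ Multiset.card m) :
    ∃ w ≤ m, Multiset.card w = n := by
  induction m using Quotient.inductionOn with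
  | _ l =>
    refine ⟨(l.take n : Multiset ℕ), (List.take_sublist n l).subperm, ?_⟩
    have h' : n ≤ l.length := h
    simp [h']

/-- The general construction: match `s` into the medium entries, give the value `R` to the big
extras. -/
theorem mt_big (R r' : ℕ) (s s' : Multiset ℕ) (hs : ∀ b ∈ s, b ≤ R) (hs' : ∀ b ∈ s', b ≤ r')
    (h2 : 2 * R ≤ r') (hmed : Multiset.card s + 1 ≤ Multiset.card (fm R r' s')) :
    ∃ L B, Mt R (r' - R) s s' L B ∧ L ≤ (Multiset.card (fb R r' s') + 1) * R ∧
      (fb R r' s').sum ≤ B + (Multiset.card (fb R r' s')) * R := by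
  -- split the medium entries
  obtain ⟨w, hw, hwc⟩ : ∃ w ≤ fm R r' s', Multiset.card w = Multiset.card s :=
    exists_le_card (by omega)
  obtain ⟨w', hw'⟩ := Multiset.le_iff_exists_add.1 hw
  have hw'0 : w' ≠ 0 := by
    rintro rfl
    rw [add_zero] at hw'
    rw [hw', hwc] at hmed
    omega
  obtain ⟨u, hu⟩ := Multiset.exists_mem_of_ne_zero hw'0
  obtain ⟨w'', rfl⟩ := Multiset.exists_cons_of_mem hu
  have hfm : ∀ b ∈ fm R r' s', R ≤ b ∧ b + R ≤ r' := fun b hb => (Multiset.mem_filter.1 hb).2
  have hmem1 : ∀ b ∈ w, R ≤ b ∧ b + R ≤ r' := fun b hb => hfm b (Multiset.mem_of_le hw hb)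
  have hmemu : R ≤ u ∧ u + R ≤ r' := hfm u (by rw [hw']; exact Multiset.mem_add.2 (Or.inr hu))
  have hmem2 : ∀ b ∈ w'', R ≤ b ∧ b + R ≤ r' := fun b hb => hfm b (by
    rw [hw']
    exact Multiset.mem_add.2 (Or.inr (Multiset.mem_cons_of_mem hb)))
  have hfsm : ∀ b ∈ fs R r' s', b < R ∧ b + R ≤ r' := fun b hb => (Multiset.mem_filter.1 hb).2
  have hfbm : ∀ b ∈ fb R r' s', r' < b + R ∧ b ≤ r' := fun b hb =>
    ⟨(Multiset.mem_filter.1 hb).2, hs' b (Multiset.mem_filter.1 hb).1⟩
  obtain ⟨B0, hB0⟩ := Mt.all (r := R) (ρ := r' - R) s w hwc.symm (fun b hb b' hb' => by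
    have := hs b hb
    have := hmem1 b' hb'
    omega)
  have hsum := Multiset.card_nsmul_le_sum (s := fb R r' s') (a := R) (fun c hc => by
    have := hfbm c hc
    omega)
  rw [smul_eq_mul] at hsum
  rcases Nat.even_or_odd' (Multiset.card (fb R r' s')) with ⟨n, hn | hn⟩
  · have h3 := Mt.evens (r := R) (ρ := r' - R) (le_refl R) n (fb R r' s') hn (fun b hb => by
      have := hfbm b hb
      omega)
    have h4 := Mt.zeros (r := R) (ρ := r' - R) (fs R r' s' + u ::ₘ w'') (fun b hb => by
      rcases Multiset.mem_add.1 hb with h | h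
      · have := hfsm b h
        omega
      · rcases Multiset.mem_cons.1 h with rfl | h
        · omega
        · have := hmem2 b h
          omega)
    have h5 := (hB0.add h3).add h4
    have e : w + fb R r' s' + (fs R r' s' + u ::ₘ w'') = s' := by
      conv_rhs => rw [split R r' s', hw']
      abel
    rw [e, add_zero, add_zero] at h5
    refine ⟨_, _, h5, ?_, ?_⟩
    · rw [hn]
      nlinarith
    · rw [hn] at hsum ⊢
      omega
  · have h3 := Mt.evens (r := R) (ρ := r' - R) (le_refl R) (n + 1) (u ::ₘ fb R r' s')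
      (by rw [Multiset.card_cons]; omega) (fun b hb => by
        rcases Multiset.mem_cons.1 hb with rfl | h
        · omega
        · have := hfbm b h
          omega)
    have h4 := Mt.zeros (r := R) (ρ := r' - R) (fs R r' s' + w'') (fun b hb => by
      rcases Multiset.mem_add.1 hb with h | h
      · have := hfsm b h
        omega
      · have := hmem2 b h
        omega)
    have h5 := (hB0.add h3).add h4
    have e : w + (u ::ₘ fb R r' s') + (fs R r' s' + w'') = s' := by
      conv_rhs => rw [split R r' s', hw']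
      rw [← Multiset.singleton_add, ← Multiset.singleton_add]
      abel
    rw [e, add_zero, add_zero] at h5
    refine ⟨_, _, h5, ?_, ?_⟩
    · rw [hn]
      nlinarith
    · rw [Multiset.sum_cons]
      rw [hn] at hsum ⊢
      have e2 : 2 * (n + 1) * R = (2 * n + 1) * R + R := by ring
      omega

/-- No big extras: match a part of `s` exactly. -/
theorem mt_nobig (R r' : ℕ) (s v s' v' : Multiset ℕ) (hs : ∀ b ∈ s, b ≤ R)
    (hR : R ≤ r') (hfb : fb R r' s' = v') (hv : ∃ B, Mt R (r' - R) v v' 0 B)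
    (hmed : Multiset.card s ≤ Multiset.card (fm R r' s')) :
    ∃ B, Mt R (r' - R) (v + s) s' 0 B := by
  obtain ⟨w, hw, hwc⟩ : ∃ w ≤ fm R r' s', Multiset.card w = Multiset.card s :=
    exists_le_card hmed
  obtain ⟨w', hw'⟩ := Multiset.le_iff_exists_add.1 hw
  have hfm : ∀ b ∈ fm R r' s', R ≤ b ∧ b + R ≤ r' := fun b hb => (Multiset.mem_filter.1 hb).2
  have hmem1 : ∀ b ∈ w, R ≤ b ∧ b + R ≤ r' := fun b hb => hfm b (Multiset.mem_of_le hw hb)
  have hmem2 : ∀ b ∈ w', R ≤ b ∧ b + R ≤ r' := fun b hb => hfm b (by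
    rw [hw']
    exact Multiset.mem_add.2 (Or.inr hb))
  have hfsm : ∀ b ∈ fs R r' s', b < R ∧ b + R ≤ r' := fun b hb => (Multiset.mem_filter.1 hb).2
  obtain ⟨B0, hB0⟩ := Mt.all (r := R) (ρ := r' - R) s w hwc.symm (fun b hb b' hb' => by
    have := hs b hb
    have := hmem1 b' hb'
    omega)
  obtain ⟨B1, hB1⟩ := hv
  have h4 := Mt.zeros (r := R) (ρ := r' - R) (fs R r' s' + w') (fun b hb => by
    rcases Multiset.mem_add.1 hb with h | h
    · have := hfsm b h
      omega
    · have := hmem2 b h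
      omega)
  have h5 := (hB1.add hB0).add h4
  have e : v' + w + (fs R r' s' + w') = s' := by
    conv_rhs => rw [split R r' s', hw', hfb]
    abel
  rw [e, add_zero, add_zero] at h5
  exact ⟨_, h5⟩

end WQ

end Pool.Agent.Helper77.DI
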