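import Pool.Agent.Helper59.DI.WqoB

/-!
DI-WQO, part C: sequences, Dickson's lemma with parities, and the theorem.
-/

namespace Pool.Agent.Helper77.DI

namespace WQ

/-- Equality modulo two together with the order. -/
def Ev (a b : ℕ) : Prop := a ≤ b ∧ a % 2 = b % 2

instance : IsPreorder ℕ Ev where
  refl a := ⟨le_refl a, rfl⟩
  trans _ _ _ h1 h2 := ⟨h1.1.trans h2.1, h1.2.trans h2.2⟩

theorem ev_wqo : WellQuasiOrdered Ev := by
  intro f
  have h1 : WellQuasiOrdered (fun a b : ℕ => a ≤ b) := wellQuasiOrdered_le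
  have h2 : WellQuasiOrdered (fun a b : Bool => a = b) := Finite.wellQuasiOrdered _
  have : IsPreorder ℕ (fun a b : ℕ => a ≤ b) := ⟨⟩
  obtain ⟨m, n, hmn, h3, h4⟩ := (h1.prod h2) (fun n => (f n, decide (f n % 2 = 0)))
  refine ⟨m, n, hmn, h3, ?_⟩
  simp only at h4
  by_cases h5 : f m % 2 = 0
  · have h6 : f n % 2 = 0 := by
      by_contra h6
      simp [h5, h6] at h4
    omega
  · have h6 : ¬ f n % 2 = 0 := by
      intro h6
      simp [h5, h6] at h4
    omega

/-- Dickson's lemma with parities. -/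
theorem dick {A : Type} [Finite A] (f : ℕ → A → ℕ) :
    ∃ g : ℕ → ℕ, StrictMono g ∧ ∀ m n, m ≤ n → ∀ a,
      f (g m) a ≤ f (g n) a ∧ f (g m) a % 2 = f (g n) a % 2 := by
  have h := WellQuasiOrdered.pi (ι := A) (α := fun _ => ℕ) (r := fun _ => Ev) (fun _ => ev_wqo)
  have : IsPreorder (A → ℕ) (fun a b => ∀ i, Ev (a i) (b i)) :=
    { refl := fun a i => refl (a i)
      trans := fun a b c hab hbc i => _root_.trans (hab i) (hbc i) }
  obtain ⟨g, hg⟩ := h.exists_monotone_subseq f
  exact ⟨g, g.strictMono, fun m n hmn a => hg m n hmn a⟩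

/-- A sequence of data all of whose invariants are monotone. -/
structure Nice (K r : ℕ → ℕ) (s : ℕ → Multiset ℕ) : Prop where
  valid : ∀ t, Valid (K t, r t, s t)
  mono_r : ∀ m n, m ≤ n → r m ≤ r n
  mono_k : ∀ m n, m ≤ n → K m - 2 * r m ≤ K n - 2 * r n
  mono_s : ∀ m n, m ≤ n → (s m).sum - 2 * r m ≤ (s n).sum - 2 * r n
  par : ∀ m n, m ≤ n → (s m).sum % 2 = (s n).sum % 2

theorem Nice.comp {K r : ℕ → ℕ} {s : ℕ → Multiset ℕ} (h : Nice K r s) (g : ℕ → ℕ)
    (hg : StrictMono g) : Nice (fun t => K (g t)) (fun t => r (g t)) (fun t => s (g t)) where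
  valid t := h.valid (g t)
  mono_r _ _ hmn := h.mono_r _ _ (hg.monotone hmn)
  mono_k _ _ hmn := h.mono_k _ _ (hg.monotone hmn)
  mono_s _ _ hmn := h.mono_s _ _ (hg.monotone hmn)
  par _ _ hmn := h.par _ _ (hg.monotone hmn)

theorem Nice.reach (hmul : StepMul) {K r : ℕ → ℕ} {s : ℕ → Multiset ℕ} (h : Nice K r s)
    {i j : ℕ} (hij : i ≤ j) {L B : ℕ} (hM : Mt (r i) (r j - r i) (s i) (s j) L B)
    (hB : 2 * (r j - r i) ≤ B ∨ L = 0) :
    Relation.ReflTransGen Step (K i, r i, s i) (K j, r j, s j) := by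
  have v1 := h.valid i
  have v2 := h.valid j
  have hr := h.mono_r i j hij
  have hk := h.mono_k i j hij
  have hs := h.mono_s i j hij
  have hsum := hM.sum_eq
  obtain ⟨-, -, v13, v14, -⟩ := v1
  obtain ⟨-, -, v23, v24, -⟩ := v2
  simp only at v13 v14 v23 v24
  apply hM.reach hmul hr (h.par i j hij)
  · rcases hB with hB | hB
    · exact hB
    · omega
  · omega

/-- Case I: bounded `r`. -/
theorem case_const (hmul : StepMul) {K r : ℕ → ℕ} {s : ℕ → Multiset ℕ} (h : Nice K r s) (R : ℕ)
    (hR : ∀ t, r t = R) :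
    ∃ i j, i < j ∧ Relation.ReflTransGen Step (K i, r i, s i) (K j, r j, s j) := by
  obtain ⟨g, hg, hgm⟩ := dick (fun (t : ℕ) (c : Fin (R + 1)) => (s t).count (c : ℕ))
  refine ⟨g 0, g 1, hg (by norm_num), ?_⟩
  have hdec : ∀ t, s t = ∑ c ∈ Finset.range (R + 1), Multiset.replicate ((s t).count c) c := by
    intro t
    have h1 := filter_eq_sum (s t) (R + 1) (fun c => c) (fun c _ c' _ h => h) (fun _ => True)
      (fun b hb => by
        have := (h.valid t).2.1 b hb
        simp only [hR] at this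
        constructor
        · intro _
          exact ⟨b, by omega, rfl⟩
        · intro _
          trivial)
    rw [Multiset.filter_true] at h1
    exact h1
  have hM := Mt.sum_range (r := r (g 0)) (ρ := r (g 1) - r (g 0))
    (fun c => Multiset.replicate ((s (g 0)).count c) c)
    (fun c => Multiset.replicate ((s (g 1)).count c) c)
    (fun c => ((s (g 1)).count c - (s (g 0)).count c) * c)
    (fun c => (s (g 0)).count c * (c - c) + ((s (g 1)).count c - (s (g 0)).count c) * (c - c))
    (R + 1) (fun c hc => by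
      have h1 := hgm 0 1 (by norm_num) ⟨c, hc⟩
      simp only at h1
      exact Mt.rep h1.1 h1.2 (le_refl c) (by omega) (le_refl c) (by omega) (by rw [hR]; omega))
  rw [← hdec, ← hdec] at hM
  apply h.reach hmul (hg.monotone (by norm_num)) hM
  left
  rw [hR, hR]
  omega

theorem Mt.fam {r ρ : ℕ} {A : Type} (w w' : A → ℕ) (h : ∀ a, w a ≤ w' a ∧ w' a ≤ w a + ρ)
    (U : Multiset A) : ∃ B, Mt r ρ (U.map w) (U.map w') 0 B := by
  induction U using Multiset.induction_on with
  | empty => exact ⟨0, by simpa using Mt.zero r ρ⟩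
  | cons a U ih =>
    obtain ⟨B, hB⟩ := ih
    have h1 := (Mt.single (r := r) (h a).1 (h a).2).add hB
    rw [Multiset.singleton_add, Multiset.singleton_add, zero_add] at h1
    rw [Multiset.map_cons, Multiset.map_cons]
    exact ⟨_, h1⟩

theorem exists_enum (t : Multiset ℕ) (n : ℕ) (h : Multiset.card t = n) :
    ∃ w : Fin n → ℕ, t = (Finset.univ : Finset (Fin n)).val.map w := by
  subst h
  induction t using Quotient.inductionOn with
  | _ l =>
    refine ⟨fun a => l.get a, ?_⟩
    rw [Fin.univ_val_map]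
    simp

/-- Case IIa: the number of medium entries with respect to some `R` is bounded infinitely often. -/
theorem case_med (hmul : StepMul) {K r : ℕ → ℕ} {s : ℕ → Multiset ℕ} (h : Nice K r s)
    (hunb : ∀ N, ∃ J, ∀ j, J ≤ j → N ≤ r j) (R M : ℕ)
    (hinf : {j | Multiset.card (fm R (r j) (s j)) ≤ M}.Infinite) :
    ∃ i j, i < j ∧ Relation.ReflTransGen Step (K i, r i, s i) (K j, r j, s j) := by
  -- exact number of medium entries
  obtain ⟨M', hM'⟩ : ∃ M', {j | Multiset.card (fm R (r j) (s j)) = M'}.Infinite := by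
    by_contra hcon
    push Not at hcon
    apply hinf
    apply Set.Finite.subset (Set.Finite.biUnion (Finset.range (M + 1)).finite_toSet
      (fun M' _ => hcon M'))
    intro j hj
    have hj' : Multiset.card (fm R (r j) (s j)) ≤ M := hj
    simp only [Set.mem_iUnion]
    exact ⟨_, Finset.mem_coe.2 (Finset.mem_range.2 (by omega)), rfl⟩
  obtain ⟨J0, hJ0⟩ := hunb (2 * R)
  have hfreq : ∀ N, ∃ n > N, Multiset.card (fm R (r n) (s n)) = M' ∧ 2 * R ≤ r n := by
    intro N
    obtain ⟨n, hn, hnN⟩ := hM'.exists_gt (max N J0)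
    exact ⟨n, lt_of_le_of_lt (le_max_left _ _) hnN, hn, hJ0 n (by
      have := le_max_right N J0
      omega)⟩
  obtain ⟨φ, hφ, hφP⟩ := Nat.exists_strictMono_subsequence hfreq
  choose w hw using fun n => exists_enum _ _ (hφP n).1
  obtain ⟨g, hg, hgm⟩ := dick (A := (Fin R ⊕ Fin R) ⊕ (Fin M' ⊕ Fin M')) (fun n a =>
    match a with
    | Sum.inl (Sum.inl c) => (s (φ n)).count (r (φ n) - (c : ℕ))
    | Sum.inl (Sum.inr c) => (s (φ n)).count (c : ℕ)
    | Sum.inr (Sum.inl m) => w n m
    | Sum.inr (Sum.inr m) => r (φ n) - w n m)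
  obtain ⟨J1, hJ1⟩ := hunb (r (φ (g 0)) + R)
  obtain ⟨n, hn0, hn⟩ : ∃ n, 0 < n ∧ r (φ (g 0)) + R ≤ r (φ (g n)) := by
    refine ⟨J1 + 1, by omega, hJ1 _ ?_⟩
    have h1 := (hφ.comp hg).id_le (J1 + 1)
    simp only [id, Function.comp_apply] at h1
    omega
  refine ⟨φ (g 0), φ (g n), hφ (hg hn0), ?_⟩
  have hle : φ (g 0) ≤ φ (g n) := (hφ.comp hg).monotone (Nat.zero_le n)
  set i := φ (g 0) with hi
  set j := φ (g n) with hj
  have hri : 2 * R ≤ r i := (hφP (g 0)).2
  have hrj : 2 * R ≤ r j := (hφP (g n)).2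
  have hg1 : ∀ c : Fin R, (s i).count (r i - (c : ℕ)) ≤ (s j).count (r j - (c : ℕ)) ∧
      (s i).count (r i - (c : ℕ)) % 2 = (s j).count (r j - (c : ℕ)) % 2 :=
    fun c => hgm 0 n (Nat.zero_le n) (Sum.inl (Sum.inl c))
  have hg2 : ∀ c : Fin R, (s i).count (c : ℕ) ≤ (s j).count (c : ℕ) ∧
      (s i).count (c : ℕ) % 2 = (s j).count (c : ℕ) % 2 :=
    fun c => hgm 0 n (Nat.zero_le n) (Sum.inl (Sum.inr c))
  have hg3 : ∀ m : Fin M', w (g 0) m ≤ w (g n) m :=
    fun m => (hgm 0 n (Nat.zero_le n) (Sum.inr (Sum.inl m))).1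
  have hg4 : ∀ m : Fin M', r i - w (g 0) m ≤ r j - w (g n) m :=
    fun m => (hgm 0 n (Nat.zero_le n) (Sum.inr (Sum.inr m))).1
  -- the three parts
  have hbig := Mt.sum_range (r := r i) (ρ := r j - r i)
    (fun c => Multiset.replicate ((s i).count (r i - c)) (r i - c))
    (fun c => Multiset.replicate ((s j).count (r j - c)) (r j - c))
    (fun c => ((s j).count (r j - c) - (s i).count (r i - c)) * (r i - c))
    (fun c => (s i).count (r i - c) * ((r j - c) - (r i - c)) +
      ((s j).count (r j - c) - (s i).count (r i - c)) * ((r j - c) - (r i - c)))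
    R (fun c hc => by
      have h1 := hg1 ⟨c, hc⟩
      simp only at h1
      exact Mt.rep h1.1 h1.2 (by omega) (by omega) (by omega) (by omega) (by omega))
  have hsmall := Mt.sum_range (r := r i) (ρ := r j - r i)
    (fun c => Multiset.replicate ((s i).count c) c)
    (fun c => Multiset.replicate ((s j).count c) c)
    (fun c => ((s j).count c - (s i).count c) * 0)
    (fun c => (s i).count c * (c - c) + ((s j).count c - (s i).count c) * (c - 0))
    R (fun c hc => by
      have h1 := hg2 ⟨c, hc⟩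
      simp only at h1
      exact Mt.rep h1.1 h1.2 (le_refl c) (by omega) (by omega) (by omega) (by omega))
  obtain ⟨B2, hmed⟩ := Mt.fam (r := r i) (ρ := r j - r i) (w (g 0)) (w (g n)) (fun m => by
    have hm1 : w (g 0) m ∈ s i := by
      have : w (g 0) m ∈ fm R (r i) (s i) := by
        rw [hw (g 0)]
        exact Multiset.mem_map_of_mem _ (Finset.mem_univ m)
      exact (Multiset.mem_filter.1 this).1
    have hm2 : w (g n) m ∈ s j := by
      have : w (g n) m ∈ fm R (r j) (s j) := by
        rw [hw (g n)]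
        exact Multiset.mem_map_of_mem _ (Finset.mem_univ m)
      exact (Multiset.mem_filter.1 this).1
    have v1 := (h.valid i).2.1 _ hm1
    have v2 := (h.valid j).2.1 _ hm2
    simp only at v1 v2
    have := hg3 m
    have := hg4 m
    omega) (Finset.univ : Finset (Fin M')).val
  rw [← hw (g 0), ← hw (g n)] at hmed
  have hM := (hbig.add hsmall).add hmed
  have vi : ∀ b ∈ s i, b ≤ r i := (h.valid i).2.1
  have vj : ∀ b ∈ s j, b ≤ r j := (h.valid j).2.1
  rw [← fb_eq R (r i) (s i) vi (by omega), ← fb_eq R (r j) (s j) vj (by omega),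
    ← fs_eq R (r i) (s i) hri, ← fs_eq R (r j) (s j) hrj, ← split, ← split] at hM
  apply h.reach hmul hle hM
  -- at least two big entries, or no big extras
  have hBc : ∀ c ∈ Finset.range R, (s j).count (r j - c) * (r j - r i) ≤
      (s i).count (r i - c) * ((r j - c) - (r i - c)) +
      ((s j).count (r j - c) - (s i).count (r i - c)) * ((r j - c) - (r i - c)) := by
    intro c hc
    have hc' := Finset.mem_range.1 hc
    have h1 := (hg1 ⟨c, hc'⟩).1
    simp only at h1
    have e : (r j - c) - (r i - c) = r j - r i := by omega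
    rw [e, ← Nat.add_mul]
    apply Nat.mul_le_mul_right
    omega
  have hBsum := Finset.sum_le_sum hBc
  rw [← Finset.sum_mul] at hBsum
  by_cases h2 : 2 ≤ ∑ c ∈ Finset.range R, (s j).count (r j - c)
  · left
    have := Nat.mul_le_mul_right (r j - r i) h2
    omega
  · right
    have hz : ∀ c ∈ Finset.range R, ((s j).count (r j - c) - (s i).count (r i - c)) * (r i - c) =
        0 := by
      intro c hc
      have h3 := Finset.single_le_sum (f := fun c => (s j).count (r j - c))
        (fun _ _ => Nat.zero_le _) hc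
      have h1 := hg1 ⟨c, Finset.mem_range.1 hc⟩
      simp only at h1
      have : (s j).count (r j - c) - (s i).count (r i - c) = 0 := by omega
      rw [this, zero_mul]
    rw [Finset.sum_eq_zero hz]
    simp

/-- Case IIb: for every `R` the number of medium entries tends to infinity. -/
theorem case_many (hmul : StepMul) {K r : ℕ → ℕ} {s : ℕ → Multiset ℕ} (h : Nice K r s)
    (hunb : ∀ N, ∃ J, ∀ j, J ≤ j → N ≤ r j)
    (hmany : ∀ R M, ∃ J, ∀ j, J ≤ j → M < Multiset.card (fm R (r j) (s j))) :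
    ∃ i j, i < j ∧ Relation.ReflTransGen Step (K i, r i, s i) (K j, r j, s j) := by
  by_contra hbad
  push Not at hbad
  have vb : ∀ t, ∀ b ∈ s t, b ≤ r t := fun t => (h.valid t).2.1
  have vs : ∀ t, 2 * r t ≤ (s t).sum := fun t => (h.valid t).2.2.2.1
  -- first claim
  have claim1 : ∀ i, ∃ J, ∀ j, J ≤ j → (Multiset.card (fb (r i) (r j) (s j)) = 1 ∨
      Multiset.card (fb (r i) (r j) (s j)) = 2) ∧
      (s j).sum - 2 * r j < (s i).sum + 3 * r i := by
    intro i
    obtain ⟨J1, hJ1⟩ := hunb (4 * r i)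
    obtain ⟨J2, hJ2⟩ := hmany (r i) (Multiset.card (s i))
    refine ⟨max (max J1 J2) (i + 1), fun j hj => ?_⟩
    have hj1 : J1 ≤ j := le_trans (le_trans (le_max_left _ _) (le_max_left _ _)) hj
    have hj2 : J2 ≤ j := le_trans (le_trans (le_max_right _ _) (le_max_left _ _)) hj
    have hij : i < j := lt_of_lt_of_le (Nat.lt_succ_self i) (le_trans (le_max_right _ _) hj)
    have hr4 := hJ1 j hj1
    have hmed := hJ2 j hj2
    obtain ⟨L, B, hM, hL, hB⟩ := mt_big (r i) (r j) (s i) (s j) (vb i) (vb j) (by omega) hmed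
    have hsum := hM.sum_eq
    have vsj := vs j
    by_contra hcon
    by_cases h0 : Multiset.card (fb (r i) (r j) (s j)) = 0
    · -- no big entries
      obtain ⟨B', hB'⟩ := mt_nobig (r i) (r j) (s i) 0 (s j) 0 (vb i) (by omega)
        (Multiset.card_eq_zero.1 h0) ⟨0, Mt.zero _ _⟩ (by omega)
      rw [zero_add] at hB'
      exact hbad i j hij (h.reach hmul hij.le hB' (Or.inr rfl))
    · apply hbad i j hij (h.reach hmul hij.le hM (Or.inl ?_))
      by_cases h3 : 3 ≤ Multiset.card (fb (r i) (r j) (s j))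
      · have h4 := Multiset.card_nsmul_le_sum (s := fb (r i) (r j) (s j)) (a := r j - r i)
          (fun c hc => by
            have := (Multiset.mem_filter.1 hc).2
            omega)
        rw [smul_eq_mul] at h4
        have h5 : 3 * (r j - r i - r i) ≤
            Multiset.card (fb (r i) (r j) (s j)) * (r j - r i - r i) :=
          Nat.mul_le_mul_right _ h3
        have h6 : Multiset.card (fb (r i) (r j) (s j)) * (r j - r i - r i) +
            Multiset.card (fb (r i) (r j) (s j)) * r i =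
            Multiset.card (fb (r i) (r j) (s j)) * (r j - r i) := by
          rw [← Nat.mul_add]
          congr 1
          omega
        omega
      · have h12 : Multiset.card (fb (r i) (r j) (s j)) = 1 ∨
            Multiset.card (fb (r i) (r j) (s j)) = 2 := by omega
        have h13 : (s i).sum + 3 * r i ≤ (s j).sum - 2 * r j := by
          by_contra hlt
          exact hcon ⟨h12, by omega⟩
        have hL3 : L ≤ 3 * r i := by
          refine hL.trans (Nat.mul_le_mul_right _ ?_)
          omega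
        omega
  -- second claim
  obtain ⟨J0, hJ0⟩ := claim1 0
  have claim2 : ∀ i, ∃ J, ∀ j, J ≤ j → Multiset.card (fb (r i) (r j) (s j)) = 1 := by
    intro i
    obtain ⟨J1, hJ1⟩ := claim1 i
    obtain ⟨J2, hJ2⟩ := hmany (r i) ((s 0).sum + 3 * r 0 + 2 * r i)
    obtain ⟨J3, hJ3⟩ := hunb (r i)
    refine ⟨max (max J0 J1) (max J2 J3), fun j hj => ?_⟩
    have hj0 : J0 ≤ j := le_trans (le_trans (le_max_left _ _) (le_max_left _ _)) hj
    have hj1 : J1 ≤ j := le_trans (le_trans (le_max_right _ _) (le_max_left _ _)) hj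
    have hj2 : J2 ≤ j := le_trans (le_trans (le_max_left _ _) (le_max_right _ _)) hj
    have hj3 : J3 ≤ j := le_trans (le_trans (le_max_right _ _) (le_max_right _ _)) hj
    have h1 := hJ1 j hj1
    have h2 := hJ2 j hj2
    have h3 := hJ3 j hj3
    have h4 := (hJ0 j hj0).2
    rcases h1.1 with h5 | h5
    · exact h5
    exfalso
    have hri : 1 ≤ r i := by
      by_contra hz
      have hz' : r i = 0 := by omega
      have hne : fb (r i) (r j) (s j) ≠ 0 := by
        intro h0
        rw [h0] at h5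
        simp at h5
      obtain ⟨b, hb⟩ := Multiset.exists_mem_of_ne_zero hne
      have hb1 := (Multiset.mem_filter.1 hb).2
      have hb2 := vb j b (Multiset.mem_filter.1 hb).1
      omega
    have h6 := Multiset.card_nsmul_le_sum (s := fb (r i) (r j) (s j)) (a := r j - r i)
      (fun c hc => by
        have := (Multiset.mem_filter.1 hc).2
        omega)
    have h7 := Multiset.card_nsmul_le_sum (s := fm (r i) (r j) (s j)) (a := 1)
      (fun c hc => by
        have := (Multiset.mem_filter.1 hc).2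
        omega)
    rw [smul_eq_mul] at h6 h7
    rw [h5] at h6
    have h8 : (s j).sum = (fb (r i) (r j) (s j)).sum + (fs (r i) (r j) (s j)).sum +
        (fm (r i) (r j) (s j)).sum := by
      conv_lhs => rw [split (r i) (r j) (s j)]
      rw [Multiset.sum_add, Multiset.sum_add]
    omega
  -- pigeonhole for the co-value of the big entry
  obtain ⟨J1, hJ1⟩ := claim2 0
  obtain ⟨J2, hJ2⟩ := hunb (r 0)
  obtain ⟨c, hc0, hcinf⟩ : ∃ c, c < r 0 ∧ {j | c ≤ r j ∧ r j - c ∈ s j}.Infinite := by
    by_contra hcon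
    push Not at hcon
    have hfin := Set.Finite.biUnion (Finset.range (r 0)).finite_toSet
      (fun c hc => hcon c (Finset.mem_range.1 (Finset.mem_coe.1 hc)))
    obtain ⟨N, hN⟩ := hfin.bddAbove
    set j := max (N + 1) (max J1 J2) with hj
    have hj1 : J1 ≤ j := le_trans (le_max_left _ _) (le_max_right _ _)
    have hj2 : J2 ≤ j := le_trans (le_max_right _ _) (le_max_right _ _)
    have hjN : N + 1 ≤ j := le_max_left _ _
    have h1 := hJ1 j hj1
    have h2 := hJ2 j hj2
    have hne : fb (r 0) (r j) (s j) ≠ 0 := by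
      intro h0
      rw [h0] at h1
      simp at h1
    obtain ⟨b, hb⟩ := Multiset.exists_mem_of_ne_zero hne
    have hb1 := (Multiset.mem_filter.1 hb).2
    have hb0 := (Multiset.mem_filter.1 hb).1
    have hb2 := vb j b hb0
    have hmem : j ∈ ⋃ c ∈ (↑(Finset.range (r 0)) : Set ℕ), {j | c ≤ r j ∧ r j - c ∈ s j} := by
      simp only [Set.mem_iUnion]
      refine ⟨r j - b, Finset.mem_coe.2 (Finset.mem_range.2 (by omega)), by omega, ?_⟩
      have : r j - (r j - b) = b := by omega
      rw [this]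
      exact hb0
    have := hN hmem
    omega
  obtain ⟨i, hi1, hi2⟩ := hcinf.nonempty
  obtain ⟨J3, hJ3⟩ := claim2 i
  obtain ⟨J4, hJ4⟩ := hmany (r i) (Multiset.card (s i))
  obtain ⟨j, ⟨hj1, hj2⟩, hjgt⟩ := hcinf.exists_gt (max i (max J3 J4))
  have hij : i < j := lt_of_le_of_lt (le_max_left _ _) hjgt
  have hj3 : J3 ≤ j := (le_trans (le_trans (le_max_left _ _) (le_max_right _ _)) hjgt.le)
  have hj4 : J4 ≤ j := (le_trans (le_trans (le_max_right _ _) (le_max_right _ _)) hjgt.le)
  have h1 := hJ3 j hj3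
  have h2 := hJ4 j hj4
  have hr0 := h.mono_r 0 i (Nat.zero_le i)
  have hrij := h.mono_r i j hij.le
  have hfb : fb (r i) (r j) (s j) = {r j - c} := by
    obtain ⟨b, hb⟩ := Multiset.card_eq_one.1 h1
    have hmem : r j - c ∈ fb (r i) (r j) (s j) := Multiset.mem_filter.2 ⟨hj2, by omega⟩
    rw [hb, Multiset.mem_singleton] at hmem
    rw [hb, hmem]
  obtain ⟨s0, hs0⟩ := Multiset.exists_cons_of_mem hi2
  obtain ⟨B, hB⟩ := mt_nobig (r i) (r j) s0 {r i - c} (s j) {r j - c} (fun b hb => vb i b (by
    rw [hs0]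
    exact Multiset.mem_cons_of_mem hb)) hrij hfb
    ⟨_, Mt.single (b := r i - c) (b' := r j - c) (by omega) (by omega)⟩ (by
      have h3 : Multiset.card (s i) = Multiset.card s0 + 1 := by
        rw [hs0, Multiset.card_cons]
      omega)
  rw [Multiset.singleton_add, ← hs0] at hB
  exact hbad i j hij (h.reach hmul hij.le hB (Or.inr rfl))

theorem wqo_aux (hmul : StepMul) (x : ℕ → ℕ × ℕ × Multiset ℕ) (hx : ∀ t, Valid (x t)) :
    ∃ i j, i < j ∧ Relation.ReflTransGen Step (x i) (x j) := by
  obtain ⟨g, hg, hgm⟩ := dick (A := Fin 4) (fun t a =>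
    ![(x t).2.1, (x t).1 - 2 * (x t).2.1, (x t).2.2.sum - 2 * (x t).2.1, (x t).2.2.sum] a)
  have hnice : Nice (fun t => (x (g t)).1) (fun t => (x (g t)).2.1) (fun t => (x (g t)).2.2) :=
    { valid := fun t => hx (g t)
      mono_r := fun m n hmn => (hgm m n hmn 0).1
      mono_k := fun m n hmn => (hgm m n hmn 1).1
      mono_s := fun m n hmn => (hgm m n hmn 2).1
      par := fun m n hmn => (hgm m n hmn 3).2 }
  suffices ∃ i j, i < j ∧ Relation.ReflTransGen Step (x (g i)) (x (g j)) by
    obtain ⟨i, j, hij, h⟩ := this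
    exact ⟨g i, g j, hg hij, h⟩
  by_cases hb : ∃ N, ∀ t, (x (g t)).2.1 ≤ N
  · -- bounded: eventually constant
    obtain ⟨N, hN⟩ := hb
    obtain ⟨T, hT⟩ : ∃ T, ∀ t, T ≤ t → (x (g t)).2.1 = (x (g T)).2.1 := by
      by_contra hcon
      push Not at hcon
      have hgrow : ∀ n, ∃ T, n ≤ (x (g T)).2.1 := by
        intro n
        induction n with
        | zero => exact ⟨0, Nat.zero_le _⟩
        | succ n ih =>
          obtain ⟨T, hT⟩ := ih
          obtain ⟨t, ht, hne⟩ := hcon T
          have := hnice.mono_r T t ht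
          exact ⟨t, by omega⟩
      obtain ⟨T, hT⟩ := hgrow (N + 1)
      have := hN T
      omega
    have hn2 := hnice.comp (fun t => T + t) (fun a b hab => by
      simp only
      omega)
    obtain ⟨i, j, hij, h⟩ := case_const hmul hn2 _ (fun t => hT (T + t) (by omega))
    exact ⟨T + i, T + j, by omega, h⟩
  · push Not at hb
    have hunb : ∀ N, ∃ J, ∀ j, J ≤ j → N ≤ (x (g j)).2.1 := by
      intro N
      obtain ⟨J, hJ⟩ := hb N
      refine ⟨J, fun j hj => ?_⟩
      have := hnice.mono_r J j hj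
      omega
    by_cases hmed : ∃ R M, {j | Multiset.card (fm R (x (g j)).2.1 (x (g j)).2.2) ≤ M}.Infinite
    · obtain ⟨R, M, hinf⟩ := hmed
      exact case_med hmul hnice hunb R M hinf
    · push Not at hmed
      apply case_many hmul hnice hunb
      intro R M
      obtain ⟨N, hN⟩ := (hmed R M).bddAbove
      refine ⟨N + 1, fun j hj => ?_⟩
      by_contra hle
      have := hN (show j ∈ {j | Multiset.card (fm R (x (g j)).2.1 (x (g j)).2.2) ≤ M} from by
        push Not at hle
        exact hle)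
      omega

end WQ

end Pool.Agent.Helper77.DI
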